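import Pool.Agent.HypC.Main
import Pool.Agent.HypC.Exist

/-!
For every `d ≥ 5` and `n ≥ 2 d + 1` the generic `d`-hyperconnectivity matroid on `E(K_n)` is not the
unique maximal matroid in which the graphs `cone^k (K_{d+1-k,d+1-k})`, `0 ≤ k ≤ d`, are circuits,
and its rank function is not given by proper sequences of such graphs.

The reason: the complete tripartite graph `K_{d,3,d-2}` is a circuit of the hyperconnectivity
matroid which is also a flat, and it does not belong to the family.
-/

set_option autoImplicit false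

namespace Pool.Agent.Results.MP_67060e_co.ConeFamilyFails

open Pool.Agent.HypC

theorem result (d n : ℕ) (hd : 5 ≤ d) (hn : 2 * d + 1 ≤ n) :
    (∃ p : Fin n → Fin d → ℝ, Generic p) ∧
    ∀ p : Fin n → Fin d → ℝ, Generic p →
      (∃ M, IsMaximalX (EK n) (coneFamily d n) M ∧ M ≠ hypMatroid p) ∧
      ∃ F ⊆ EK n, ∃ r : ℕ, (hypMatroid p).eRk F = r ∧
        IsLeast (valSet (coneFamily d n) F) ((r : ℤ) + 1) :=
  ⟨exists_generic n d, fun p hp => main d n hd hn p hp⟩

end Pool.Agent.Results.MP_67060e_co.ConeFamilyFails
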